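import Mathlib
import Pool.Agent.NH18.AU.C4

/-!
# MP_1e1427_nt: almost all odd `n`, with all prime factors beyond `√n`

For almost all odd `n` there are many quadruples of natural numbers with `n = x² + y² + z² + w²` for which all prime
factors of `2^(x+y) + 2^(z+w) + 1` are larger than `√n (log n)^a`, for every `a < 1`. The number of exceptional
`n ≤ X` is at most `C X / log^U X`, for every `U`.

The quadruples are those with `x + y = P`, `z + w = (P + 1) / 2` for a prime `P ≡ 3 mod 8` such that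
`2 n - P² - ((P + 1) / 2)²` is a prime; then all prime factors of the Aurifeuillian number
`2^P + 2^((P+1)/2) + 1` are of the form `4 h P + 1`.
-/

namespace Pool.Agent.Results.MP_1e1427_nt.AlmostAllOdd
open Finset Pool.Agent.NH18.AU

/-- the quadruples `(x, y, z, w)` of natural numbers with `n = x² + y² + z² + w²` for which all prime factors of
`2^(x+y) + 2^(z+w) + 1` are larger than `√n (log n)^a` -/
def Good (a : ℝ) (n : ℕ) : Set (ℕ × ℕ × ℕ × ℕ) :=
  {v | n = v.1 ^ 2 + v.2.1 ^ 2 + v.2.2.1 ^ 2 + v.2.2.2 ^ 2 ∧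
    ∀ q : ℕ, q.Prime → q ∣ 2 ^ (v.1 + v.2.1) + 2 ^ (v.2.2.1 + v.2.2.2) + 1 →
      √(n : ℝ) * Real.log n ^ a < q}

lemma Good_finite (a : ℝ) (n : ℕ) : (Good a n).Finite := by
  apply Set.Finite.subset (s := (((Finset.range (n + 1)) ×ˢ ((Finset.range (n + 1)) ×ˢ
    ((Finset.range (n + 1)) ×ˢ (Finset.range (n + 1)))) : Finset (ℕ × ℕ × ℕ × ℕ)) :
    Set (ℕ × ℕ × ℕ × ℕ)))
  · exact Finset.finite_toSet _
  · rintro ⟨a, b, c', d⟩ ⟨h, -⟩
    simp only at h
    simp only [mem_coe, mem_product, mem_range]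
    have k1 : a ≤ a ^ 2 := Nat.le_self_pow (by norm_num) a
    have k2 : b ≤ b ^ 2 := Nat.le_self_pow (by norm_num) b
    have k3 : c' ≤ c' ^ 2 := Nat.le_self_pow (by norm_num) c'
    have k4 : d ≤ d ^ 2 := Nat.le_self_pow (by norm_num) d
    omega

lemma two_squares (R : ℕ) (hR : R.Prime) (h4 : R % 4 = 1) :
    ∃ s t : ℕ, (2 * s + 1) ^ 2 + (2 * t) ^ 2 = R := by
  have := Fact.mk hR
  obtain ⟨a, b, hab⟩ := Nat.Prime.sq_add_sq (p := R) (by omega)
  rcases Nat.even_or_odd a with ha | ha <;> rcases Nat.even_or_odd b with hb | hb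
  · exfalso
    obtain ⟨a', rfl⟩ := ha
    obtain ⟨b', rfl⟩ := hb
    have : 4 * (a' ^ 2 + b' ^ 2) = R := by rw [← hab]; ring
    omega
  · obtain ⟨t, rfl⟩ := ha
    obtain ⟨s, rfl⟩ := hb
    exact ⟨s, t, by rw [← hab]; ring⟩
  · obtain ⟨s, rfl⟩ := ha
    obtain ⟨t, rfl⟩ := hb
    exact ⟨s, t, by rw [← hab]; ring⟩
  · exfalso
    obtain ⟨a', rfl⟩ := ha
    obtain ⟨b', rfl⟩ := hb
    have : 4 * (a' ^ 2 + a' + b' ^ 2 + b') + 2 = R := by rw [← hab]; ring
    omega

lemma quad_of (a : ℝ) (ha : 0 ≤ a) (X n k : ℕ) (hn : Odd n) (hnX : n ≤ X)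
    (hk : k ∈ gk (1 - a) X n) : ∃ v ∈ Good a n, v.1 + v.2.1 = 8 * k + 3 := by
  classical
  unfold gk at hk
  rw [mem_filter] at hk
  obtain ⟨-, hLL, hR⟩ := hk
  obtain ⟨a1, a2, a3, a4, a5⟩ := LL_mem hLL
  rw [GP_eval] at hR
  obtain ⟨R, hRd⟩ : ∃ R, R = (((2 * n : ℕ) : ℤ) - (80 * (k : ℤ) ^ 2 + 64 * k + 13)).toNat := ⟨_, rfl⟩
  rw [← hRd] at hR
  have hR2 := hR.two_le
  have hRz : (R : ℤ) = ((2 * n : ℕ) : ℤ) - (80 * (k : ℤ) ^ 2 + 64 * k + 13) := by
    rw [hRd]
    apply Int.toNat_of_nonneg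
    omega
  have hRn : R + (80 * k ^ 2 + 64 * k + 13) = 2 * n := by
    have h1 : ((R + (80 * k ^ 2 + 64 * k + 13) : ℕ) : ℤ) = ((2 * n : ℕ) : ℤ) := by
      push_cast at hRz ⊢
      linarith
    exact_mod_cast h1
  have hR4 : R % 4 = 1 := by
    obtain ⟨m, hm⟩ := hn
    generalize k ^ 2 = K at hRn
    omega
  obtain ⟨s, t, hst⟩ := two_squares R hR hR4
  have hPA := PA_sq X
  have hlarge : R < (4 * k + 2) ^ 2 := by
    have h1 : PA X ^ 2 ≤ (8 * k + 3) ^ 2 := Nat.pow_le_pow_left a1.le 2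
    have h2 : 4 * n < 3 * (8 * k + 3) ^ 2 := by omega
    nlinarith
  have hs : 2 * s + 1 < 4 * k + 2 := by
    by_contra hcon
    push Not at hcon
    have := Nat.pow_le_pow_left hcon 2
    nlinarith
  have ht : 2 * t < 4 * k + 2 := by
    by_contra hcon
    push Not at hcon
    have := Nat.pow_le_pow_left hcon 2
    nlinarith
  obtain ⟨a', ha'⟩ : ∃ a', a' + s = 4 * k + 1 := ⟨4 * k + 1 - s, by omega⟩
  obtain ⟨b', hb'⟩ : ∃ b', b' + t = 2 * k + 1 := ⟨2 * k + 1 - t, by omega⟩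
  refine ⟨(a' + 2 * s + 1, a', b' + 2 * t, b'), ⟨?_, ?_⟩, ?_⟩
  · simp only
    have e1 : 8 * k + 3 = 2 * (a' + s) + 1 := by omega
    have e2 : 4 * k + 2 = 2 * (b' + t) := by omega
    have e3 : 2 * n = 2 * ((a' + 2 * s + 1) ^ 2 + a' ^ 2 + (b' + 2 * t) ^ 2 + b' ^ 2) := by
      calc 2 * n = ((2 * s + 1) ^ 2 + (2 * t) ^ 2) + ((8 * k + 3) ^ 2 + (4 * k + 2) ^ 2) := by
            rw [hst, ← hRn]
            ring
        _ = _ := by
            rw [e1, e2]
            ring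
    omega
  · intro q hq hqd
    simp only at hqd
    have e1 : a' + 2 * s + 1 + a' = 8 * k + 3 := by omega
    have e2 : b' + 2 * t + b' = 4 * k + 1 + 1 := by omega
    rw [e1, e2] at hqd
    have e3 : 2 ^ (8 * k + 3) + 2 ^ (4 * k + 1 + 1) + 1 =
        2 ^ (8 * k + 3) + 2 ^ (4 * k + 1) + 2 ^ (4 * k + 1) + 1 := by
      rw [pow_succ 2 (4 * k + 1)]
      ring
    rw [e3] at hqd
    obtain ⟨h, h1, hqe⟩ := Pool.Agent.R330.AF.prime_factor a3 hq hqd
    have hbig : Real.log X ^ a < h := by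
      by_contra hcon
      push Not at hcon
      apply a5 h
      · rw [mem_Icc]
        refine ⟨h1, ?_⟩
        apply Nat.le_floor
        have : 1 - (1 - a) = a := by ring
        rw [this]
        exact hcon
      · rw [← hqe]
        exact hq
    have hn1 : 1 ≤ n := hn.pos
    have hnr : (1 : ℝ) ≤ n := by exact_mod_cast hn1
    have hXr : (n : ℝ) ≤ X := by exact_mod_cast hnX
    have hPr : √(X : ℝ) ≤ ((8 * k + 3 : ℕ) : ℝ) := (PA_ge X).trans (by exact_mod_cast a1.le)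
    have e4 : √(n : ℝ) ≤ √(X : ℝ) := Real.sqrt_le_sqrt hXr
    have e5 : Real.log n ^ a ≤ Real.log X ^ a :=
      Real.rpow_le_rpow (Real.log_nonneg hnr) (Real.log_le_log (by linarith) hXr) ha
    have hq' : (q : ℝ) = 4 * h * ((8 * k + 3 : ℕ) : ℝ) + 1 := by
      rw [hqe]
      push_cast
      ring
    have hh : (0 : ℝ) ≤ h := Nat.cast_nonneg h
    have hS0 : 0 ≤ √(n : ℝ) := Real.sqrt_nonneg _
    have e6 : √(n : ℝ) * Real.log n ^ a ≤ ((8 * k + 3 : ℕ) : ℝ) * h := by
      apply mul_le_mul (e4.trans hPr) (e5.trans hbig.le)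
      · exact Real.rpow_nonneg (Real.log_nonneg hnr) a
      · exact Nat.cast_nonneg _
    have e7 : (0 : ℝ) ≤ ((8 * k + 3 : ℕ) : ℝ) * h := mul_nonneg (Nat.cast_nonneg _) hh
    rw [hq']
    linarith
  · simp only
    omega

lemma card_gk (a : ℝ) (ha : 0 ≤ a) (X n : ℕ) (hn : Odd n) (hnX : n ≤ X) :
    (gk (1 - a) X n).card ≤ (Good a n).ncard := by
  classical
  have h : ∀ k : ℕ, ∃ v : ℕ × ℕ × ℕ × ℕ, k ∈ gk (1 - a) X n →
      (v ∈ Good a n ∧ v.1 + v.2.1 = 8 * k + 3) := by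
    intro k
    by_cases hk : k ∈ gk (1 - a) X n
    · obtain ⟨v, hv, hv2⟩ := quad_of a ha X n k hn hnX hk
      exact ⟨v, fun _ => ⟨hv, hv2⟩⟩
    · exact ⟨0, fun h => absurd h hk⟩
  choose f hf using h
  rw [← Set.ncard_coe_finset]
  apply Set.ncard_le_ncard_of_injOn f (ht := Good_finite a n)
  · intro k hk
    exact (hf k (mem_coe.1 hk)).1
  · intro k hk k' hk' he
    have h1 := (hf k (mem_coe.1 hk)).2
    have h2 := (hf k' (mem_coe.1 hk')).2
    rw [he] at h1
    omega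

/-- the scales -/
lemma cover (M n : ℕ) (h1 : M / 2 < n) (h2 : n ≤ M) :
    ∃ j ∈ range 7, 9 * ((fun m => 9 * m / 10)^[j] M) / 10 < n ∧ n ≤ (fun m => 9 * m / 10)^[j] M := by
  by_contra hcon
  push Not at hcon
  have g0 := hcon 0 (by simp)
  have g1 := hcon 1 (by simp)
  have g2 := hcon 2 (by simp)
  have g3 := hcon 3 (by simp)
  have g4 := hcon 4 (by simp)
  have g5 := hcon 5 (by simp)
  have g6 := hcon 6 (by simp)
  simp only [Function.iterate_succ, Function.iterate_zero, Function.comp, id] at g0 g1 g2 g3 g4 g5 g6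
  omega

lemma scale_ge (M j : ℕ) (hj : j ≤ 6) (hM : 1000 ≤ M) :
    M / 4 ≤ (fun m => 9 * m / 10)^[j] M ∧ (fun m => 9 * m / 10)^[j] M ≤ M := by
  interval_cases j <;>
    simp only [Function.iterate_succ, Function.iterate_zero, Function.comp, id] <;> omega

open Classical in
/-- For all `0 ≤ a < 1` and all `U` there is `C` such that for all `X ≥ 2` there are at most `C X / log^U X` odd
numbers `n ≤ X` with fewer than `√n / (log n)^4` quadruples of natural numbers `(x, y, z, w)` such that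
`n = x² + y² + z² + w²` and all prime factors of `2^(x+y) + 2^(z+w) + 1` are larger than `√n (log n)^a`. -/
theorem result : ∀ a : ℝ, 0 ≤ a → a < 1 → ∀ U : ℕ, ∃ C : ℝ, 0 < C ∧ ∀ X : ℕ, 2 ≤ X →
    (((Icc 1 X).filter (fun n : ℕ => Odd n ∧
      ((Good a n).ncard : ℝ) < √(n : ℝ) / Real.log n ^ 4)).card : ℝ) ≤
      C * (X / Real.log X ^ U) := by
  intro a ha0 ha1 U
  obtain ⟨X0, hsc⟩ := scale (1 - a) (by linarith) (by linarith) (U + 1)
  apply Pool.Agent.H373R2.T7.PB.dyadic (fun n : ℕ => Odd n ∧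
      ((Good a n).ncard : ℝ) < √(n : ℝ) / Real.log n ^ 4) U
  obtain ⟨n1, h1⟩ := Pool.Agent.H373R2.T7.ev_L' (7 * 2 ^ (U + 1) + 64)
  obtain ⟨K, hK1, hK2⟩ : ∃ K : ℕ, 1000 ≤ K ∧ X0 + n1 ≤ K :=
    ⟨X0 + n1 + 1000, Nat.le_add_left _ _, Nat.le_add_right _ _⟩
  refine ⟨4 * K + 4, fun M hM => ?_⟩
  have hLM := h1 M (by omega)
  have hM0 : (0 : ℝ) < M := by exact_mod_cast (by omega : 0 < M)
  set LM := Real.log M with hLMd
  have hpow0 : (0 : ℝ) < 7 * 2 ^ (U + 1) := by positivity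
  have hLM0 : 0 < LM := by linarith
  set g : ℕ → ℕ := fun m => 9 * m / 10 with hg
  -- one scale
  have hone : ∀ j ∈ range 7, (((Icc 1 (g^[j] M)).filter (fun n : ℕ => 9 * (g^[j] M) / 10 < n ∧
      (Odd n ∧ ((Good a n).ncard : ℝ) < √(n : ℝ) / Real.log n ^ 4))).card : ℝ) ≤
      2 ^ (U + 1) * (M / LM ^ (U + 1)) := by
    intro j hj
    rw [mem_range] at hj
    obtain ⟨s1, s2⟩ := scale_ge M j (by omega) (by omega)
    rw [← hg] at s1 s2
    obtain ⟨X, hX⟩ : ∃ X, X = g^[j] M := ⟨_, rfl⟩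
    rw [← hX] at s1 s2 ⊢
    have hX0 : K ≤ X := by omega
    have hs := hsc X (by omega)
    have hLX := h1 X (by omega)
    have hXr : (1000 : ℝ) ≤ X := by exact_mod_cast (by omega : 1000 ≤ X)
    have hXM : (X : ℝ) ≤ M := by exact_mod_cast s2
    have hLX0 : 0 < Real.log X := by linarith
    have hXM4 : (M : ℝ) / 8 ≤ X := by
      rw [div_le_iff₀ (by norm_num)]
      exact_mod_cast (by omega : M ≤ X * 8)
    have hLXM : LM / 2 ≤ Real.log X := by
      have h2 := Real.log_le_log (by positivity) hXM4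
      rw [Real.log_div hM0.ne' (by norm_num), ← hLMd] at h2
      have h3 : Real.log 8 = 3 * Real.log 2 := by
        rw [show (8 : ℝ) = 2 ^ 3 by norm_num, Real.log_pow]
        norm_num
      have h4 := Real.log_two_lt_d9
      rw [h3] at h2
      linarith
    have hbound : (X : ℝ) / Real.log X ^ (U + 1) ≤ 2 ^ (U + 1) * (M / LM ^ (U + 1)) := by
      calc (X : ℝ) / Real.log X ^ (U + 1) ≤ M / (LM / 2) ^ (U + 1) := by
            apply div_le_div₀ hM0.le hXM (by positivity)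
            exact pow_le_pow_left₀ (by positivity) hLXM _
        _ = _ := by
            rw [div_pow]
            field_simp
    refine le_trans ?_ (hs.trans hbound)
    have hle : ((Icc 1 X).filter (fun n : ℕ => 9 * X / 10 < n ∧
        (Odd n ∧ ((Good a n).ncard : ℝ) < √(n : ℝ) / Real.log n ^ 4))).card ≤
        ((Icc 1 X).filter (fun n : ℕ => 9 * X / 10 < n ∧
          (((gk (1 - a) X n).card : ℕ) : ℝ) < xx X / (2 * Real.log (xx X) ^ 3))).card := by
      apply card_le_card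
      intro n hn
      rw [mem_filter, mem_Icc] at hn ⊢
      obtain ⟨⟨hn1, hn2⟩, hn9, hodd, hfew⟩ := hn
      refine ⟨⟨hn1, hn2⟩, hn9, ?_⟩
      have h2 : (((gk (1 - a) X n).card : ℕ) : ℝ) ≤ ((Good a n).ncard : ℝ) := by
        exact_mod_cast card_gk a ha0 X n hodd hn2
      refine lt_of_le_of_lt h2 (hfew.trans_le ?_)
      have hnX : (n : ℝ) ≤ X := by exact_mod_cast hn2
      have hX2n : (X : ℝ) / 2 ≤ n := by
        rw [div_le_iff₀ two_pos]
        exact_mod_cast (by omega : X ≤ n * 2)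
      have hlogn : Real.log X / 2 ≤ Real.log n := by
        have h3 := Real.log_le_log (by positivity) hX2n
        rw [Real.log_div (by linarith) (by norm_num)] at h3
        have h4 := Real.log_two_lt_d9
        linarith
      have hx1 := xx_le X
      have hx2 := xx_ge X (by omega)
      have hS0 : 0 < √(X : ℝ) := Real.sqrt_pos.2 (by linarith)
      have hxX : (xx X : ℝ) ≤ X := by
        have h3 : √(X : ℝ) * √(X : ℝ) = X := Real.mul_self_sqrt (by linarith)
        have h4 : (4 : ℝ) ≤ √(X : ℝ) := by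
          rw [Real.le_sqrt (by norm_num) (by linarith)]
          linarith
        nlinarith
      have hx4 : (4 : ℝ) ≤ xx X := by
        have h4 : (4 : ℝ) ≤ √(X : ℝ) := by
          rw [Real.le_sqrt (by norm_num) (by linarith)]
          linarith
        linarith
      have hL : Real.log (xx X) ≤ Real.log X := Real.log_le_log (by linarith) hxX
      have hL0 : 0 < Real.log (xx X) := Real.log_pos (by linarith)
      have hn4 : Real.log (xx X) ^ 3 ≤ Real.log n ^ 4 := by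
        calc Real.log (xx X) ^ 3 ≤ Real.log X ^ 3 := pow_le_pow_left₀ hL0.le hL 3
          _ ≤ (Real.log X / 2) ^ 4 := by
              have h5 : (Real.log X / 2) ^ 4 = Real.log X ^ 3 * (Real.log X / 16) := by ring
              rw [h5]
              apply le_mul_of_one_le_right (by positivity)
              linarith
          _ ≤ Real.log n ^ 4 := pow_le_pow_left₀ (by positivity) hlogn 4
      have hsn : √(n : ℝ) ≤ xx X / 2 := (Real.sqrt_le_sqrt hnX).trans hx1
      calc √(n : ℝ) / Real.log n ^ 4 ≤ (xx X / 2) / Real.log (xx X) ^ 3 :=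
            div_le_div₀ (by positivity) hsn (by positivity) hn4
        _ = xx X / (2 * Real.log (xx X) ^ 3) := by
            field_simp
    exact_mod_cast hle
  have hsub : (Ioc (M / 2) M).filter (fun n : ℕ => Odd n ∧
      ((Good a n).ncard : ℝ) < √(n : ℝ) / Real.log n ^ 4) ⊆
      (range 7).biUnion (fun j => (Icc 1 (g^[j] M)).filter (fun n : ℕ =>
        9 * (g^[j] M) / 10 < n ∧ (Odd n ∧ ((Good a n).ncard : ℝ) < √(n : ℝ) / Real.log n ^ 4))) := by
    intro n hn
    rw [mem_filter, mem_Ioc] at hn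
    obtain ⟨⟨hn1, hn2⟩, hn3⟩ := hn
    obtain ⟨j, hj, hj1, hj2⟩ := cover M n hn1 hn2
    rw [mem_biUnion]
    refine ⟨j, hj, ?_⟩
    rw [mem_filter, mem_Icc]
    exact ⟨⟨by omega, hj2⟩, hj1, hn3⟩
  have hcard : (((Ioc (M / 2) M).filter (fun n : ℕ => Odd n ∧
      ((Good a n).ncard : ℝ) < √(n : ℝ) / Real.log n ^ 4)).card : ℝ) ≤
      ∑ j ∈ range 7, (((Icc 1 (g^[j] M)).filter (fun n : ℕ =>
        9 * (g^[j] M) / 10 < n ∧ (Odd n ∧ ((Good a n).ncard : ℝ) < √(n : ℝ) / Real.log n ^ 4))).card : ℝ) := by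
    have h2 := (card_le_card hsub).trans card_biUnion_le
    exact_mod_cast h2
  refine hcard.trans ((sum_le_sum hone).trans ?_)
  rw [sum_const, card_range, nsmul_eq_mul]
  have h3 : (7 : ℕ) * ((2 : ℝ) ^ (U + 1) * (M / LM ^ (U + 1))) =
      (7 * 2 ^ (U + 1) / LM) * (M / LM ^ U) := by
    rw [pow_succ LM U]
    push_cast
    field_simp
  rw [h3]
  calc (7 * 2 ^ (U + 1) / LM) * (M / LM ^ U) ≤ 1 * (M / LM ^ U) := by
        apply mul_le_mul_of_nonneg_right _ (by positivity)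
        rw [div_le_one hLM0]
        linarith
    _ = _ := one_mul _

end Pool.Agent.Results.MP_1e1427_nt.AlmostAllOdd
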