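import Mathlib
import Pool.Agent.NH18.AU.C6

/-!
# MP_1e1427_nt: almost all odd `n`, with strong probable primes in place of primes

For almost all odd `n` there are many quadruples of natural numbers with `n = x² + y² + z² + w²` for which
`2^(x+y) + 2^(z+w) + 1` is a prime or a strong pseudoprime to the base `2`, and is coprime to all the numbers
`2 ^ K - 1`, `1 ≤ K ≤ 4 √n`, simultaneously. The number of exceptional `n ≤ X` is at most `C X / log^U X`, for
every `U`.

The quadruples are those with `x + y = P`, `z + w = (P + 1) / 2` for a prime `P ≡ 3 mod 8` such that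
`2 n - P² - ((P + 1) / 2)²` is a prime. For the Aurifeuillian number `N = 2^P + 2^((P+1)/2) + 1` the odd part of
`N - 1` is `2^((P-1)/2) + 1`, a multiple of `P` by Euler's criterion, and `N` divides `2^(2P) + 1`; the order of `2`
modulo every prime factor of `N` is `4 P`.
-/

namespace Pool.Agent.Results.MP_1e1427_nt.StrongProbablePrimes
open Finset Pool.Agent.NH18.AU

/-- `N` is odd, and a prime or a strong pseudoprime to the base `b` (`N` passes the Miller-Rabin test to the base `b`):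
with `N - 1 = 2 ^ e * d`, `d` odd, either `b ^ d` is `1` or one of the `b ^ (2 ^ j * d)`, `j < e`, is `-1` modulo `N` -/
def StrongProbablePrime (b N : ℕ) : Prop :=
  ∃ e d : ℕ, 0 < e ∧ Odd d ∧ N = 2 ^ e * d + 1 ∧ (N ∣ b ^ d - 1 ∨ ∃ j < e, N ∣ b ^ (2 ^ j * d) + 1)

/-- the quadruples `(x, y, z, w)` of natural numbers with `n = x² + y² + z² + w²` for which
`2^(x+y) + 2^(z+w) + 1` is a strong probable prime to the base `2` and coprime to all the `2 ^ K - 1`,
`1 ≤ K ≤ 4 √n` -/
def Good (n : ℕ) : Set (ℕ × ℕ × ℕ × ℕ) :=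
  {v | n = v.1 ^ 2 + v.2.1 ^ 2 + v.2.2.1 ^ 2 + v.2.2.2 ^ 2 ∧
    StrongProbablePrime 2 (2 ^ (v.1 + v.2.1) + 2 ^ (v.2.2.1 + v.2.2.2) + 1) ∧
    ∀ K : ℕ, 0 < K → (K : ℝ) ≤ 4 * √(n : ℝ) →
      Nat.Coprime (2 ^ (v.1 + v.2.1) + 2 ^ (v.2.2.1 + v.2.2.2) + 1) (2 ^ K - 1)}

lemma Good_finite (n : ℕ) : (Good n).Finite := by
  apply Set.Finite.subset (s := (((Finset.range (n + 1)) ×ˢ ((Finset.range (n + 1)) ×ˢ
    ((Finset.range (n + 1)) ×ˢ (Finset.range (n + 1)))) : Finset (ℕ × ℕ × ℕ × ℕ)) :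
    Set (ℕ × ℕ × ℕ × ℕ)))
  · exact Finset.finite_toSet _
  · rintro ⟨a, b, c', d⟩ ⟨h, -⟩
    simp only at h
    simp only [mem_coe, mem_product, mem_range]
    have k1 : a ≤ a ^ 2 := Nat.le_self_pow (by norm_num) a
    have k2 : b ≤ b ^ 2 := Nat.le_self_pow (by norm_num) b
    have k3 : c' ≤ c' ^ 2 := Nat.le_self_pow (by norm_num) c'
    have k4 : d ≤ d ^ 2 := Nat.le_self_pow (by norm_num) d
    omega

lemma card_gk (X n : ℕ) (hn : Odd n) (hnX : n ≤ X) : (gk (1 - 0) X n).card ≤ (Good n).ncard := by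
  apply card_le_of (1 - 0) X n hn hnX (Good n) (Good_finite n)
  intro k v h1 h2 h3 h4 h5
  refine ⟨h1, ?_, ?_⟩
  · rw [h2, h3]
    exact Pool.Agent.NH18.SP.strong h4
  · intro K hK hK2
    rw [h2, h3]
    apply Pool.Agent.NH18.SP.coprime_of h4 hK
    have hlt : (K : ℝ) < 4 * ((8 * k + 3 : ℕ) : ℝ) := by
      have h6 : √(n : ℝ) ≤ √(X : ℝ) := Real.sqrt_le_sqrt (by exact_mod_cast hnX)
      linarith
    exact_mod_cast hlt

open Classical in
/-- For every `U` there is `C` such that for all `X ≥ 2` there are at most `C X / log^U X` odd numbers `n ≤ X` with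
fewer than `√n / (log n)^4` quadruples of natural numbers `(x, y, z, w)` such that `n = x² + y² + z² + w²` and
`2^(x+y) + 2^(z+w) + 1` is a strong probable prime to the base `2` (a prime or a strong pseudoprime) and is coprime to
`2 ^ K - 1` for all `1 ≤ K ≤ 4 √n`. -/
theorem result : ∀ U : ℕ, ∃ C : ℝ, 0 < C ∧ ∀ X : ℕ, 2 ≤ X →
    (((Icc 1 X).filter (fun n : ℕ => Odd n ∧
      ((Good n).ncard : ℝ) < √(n : ℝ) / Real.log n ^ 4)).card : ℝ) ≤
      C * (X / Real.log X ^ U) := by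
  intro U
  exact general 0 le_rfl one_pos Good (fun X n hn hnX => card_gk X n hn hnX) U

end Pool.Agent.Results.MP_1e1427_nt.StrongProbablePrimes
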